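import Mathlib

/-!
# Fixed points of antimorphisms of regular self-complementary graphs

For every `k ≥ 3` there are a regular self-complementary graph on `4 k + 1` vertices and a vertex `v`
of it which lies in exactly `k (k - 1)` triangles and is fixed by no isomorphism onto the complement.

The graph has a centre with 13 vertices and four arms `A, B, C, D` with `m = k - 3` vertices each;
`A` and `D` are cliques, `B` and `C` are independent, the pairs `AB`, `BC`, `CD` are completely joined,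
and every vertex of the centre is joined to exactly two arms. An isomorphism onto the complement which
fixes `v` would map the degrees in the neighbourhood of `v` to the degrees of the complement among the
nonneighbours of `v`; but the sums of the squares of these degrees differ by `6`.
-/

set_option autoImplicit false

namespace Pool.Agent.Results.MP_b6be33_co.FixedVertices

/-- rows of the adjacency matrix of the centre -/
def row : Fin 13 → ℕ := ![2900, 1720, 4777, 6310, 3235, 414, 7809, 126, 7713, 4423, 6482, 1369, 1868]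

/-- adjacency in the centre -/
def H (i j : Fin 13) : Bool := (row i).testBit j

/-- the arms joined to the vertices of the centre -/
def typ : Fin 13 → ℕ := ![9, 9, 9, 9, 9, 6, 6, 6, 6, 3, 5, 12, 10]

/-- the vertex `i` of the centre is joined to the arm `a` -/
def T (i : Fin 13) (a : Fin 4) : Bool := (typ i).testBit a

/-- adjacency of arms -/
def R (a b : Fin 4) : Bool := ((![3, 5, 10, 12] : Fin 4 → ℕ) a).testBit b

/-- the isomorphism onto the complement, on the centre -/
def pi : Fin 13 → Fin 13 := ![0, 2, 3, 4, 1, 6, 7, 8, 5, 10, 11, 12, 9]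

/-- its inverse -/
def pi' : Fin 13 → Fin 13 := ![0, 4, 1, 2, 3, 8, 5, 6, 7, 12, 9, 10, 11]

/-- the isomorphism onto the complement, on the arms -/
def sg : Fin 4 → Fin 4 := ![1, 3, 0, 2]

/-- its inverse -/
def sg' : Fin 4 → Fin 4 := ![2, 0, 3, 1]

theorem H_symm : ∀ i j : Fin 13, H i j = H j i := by decide
theorem H_irr : ∀ i : Fin 13, H i i = false := by decide
theorem R_symm : ∀ a b : Fin 4, R a b = R b a := by decide
theorem H_pi : ∀ i j : Fin 13, i ≠ j → (H (pi i) (pi j) = !(H i j)) := by decide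
theorem T_pi : ∀ (i : Fin 13) (a : Fin 4), (T (pi i) (sg a) = !(T i a)) := by decide
theorem R_sg : ∀ a b : Fin 4, (R (sg a) (sg b) = !(R a b)) := by decide

/-- the vertices -/
abbrev V (m : ℕ) := Fin 13 ⊕ (Fin 4 × Fin m)

/-- adjacency -/
def adjB (m : ℕ) : V m → V m → Bool
  | .inl i, .inl j => H i j
  | .inl i, .inr p => T i p.1
  | .inr p, .inl i => T i p.1
  | .inr p, .inr q => R p.1 q.1 && decide (p ≠ q)

/-- the graph -/
def G (m : ℕ) : SimpleGraph (V m) where
  Adj u w := adjB m u w = true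
  symm := ⟨by
    rintro (i | p) (j | q) h
    · simpa only [adjB, H_symm j i] using h
    · simpa only [adjB] using h
    · simpa only [adjB] using h
    · simpa only [adjB, R_symm q.1 p.1, ne_comm (a := q)] using h⟩
  loopless := ⟨by
    rintro (i | p) h
    · simp [adjB, H_irr] at h
    · simp [adjB] at h⟩

instance (m : ℕ) : DecidableRel (G m).Adj := fun u w => inferInstanceAs (Decidable (adjB m u w = true))

/-- the isomorphism onto the complement as a permutation -/
def perm (m : ℕ) : Equiv.Perm (V m) where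
  toFun
    | .inl i => .inl (pi i)
    | .inr p => .inr (sg p.1, p.2)
  invFun
    | .inl i => .inl (pi' i)
    | .inr p => .inr (sg' p.1, p.2)
  left_inv := by
    rintro (i | ⟨a, x⟩)
    · show Sum.inl (pi' (pi i)) = _
      congr 1
      revert i; decide
    · show Sum.inr (sg' (sg a), x) = _
      congr 2
      revert a; decide
  right_inv := by
    rintro (i | ⟨a, x⟩)
    · show Sum.inl (pi (pi' i)) = _
      congr 1
      revert i; decide
    · show Sum.inr (sg (sg' a), x) = _
      congr 2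
      revert a; decide

/-- `G m` is isomorphic to its complement. -/
def antiIso (m : ℕ) : G m ≃g (G m)ᶜ where
  toEquiv := perm m
  map_rel_iff' := by
    intro u w
    rw [SimpleGraph.compl_adj, (perm m).injective.ne_iff]
    by_cases huw : u = w
    · subst huw
      simp
    · simp only [ne_eq, huw, not_false_eq_true, true_and]
      show ¬ (adjB m (perm m u) (perm m w) = true) ↔ adjB m u w = true
      have key : adjB m (perm m u) (perm m w) = !(adjB m u w) := by
        rcases u with i | p <;> rcases w with j | q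
        · exact H_pi i j (fun h => huw (congrArg _ h))
        · exact T_pi i q.1
        · exact T_pi j p.1
        · have hpq : p ≠ q := fun h => huw (congrArg _ h)
          have h2 : ((sg p.1, p.2) : Fin 4 × Fin m) ≠ (sg q.1, q.2) := by
            intro h
            have h3 : perm m (Sum.inr p) = perm m (Sum.inr q) := congrArg Sum.inr h
            exact huw ((perm m).injective h3)
          show (R (sg p.1) (sg q.1) && decide (((sg p.1, p.2) : Fin 4 × Fin m) ≠ (sg q.1, q.2))) = !(R p.1 q.1 && decide (p ≠ q))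
          rw [R_sg]
          simp [hpq, h2]
      rw [key]
      simp

/-- indicator of adjacency -/
def g (m : ℕ) (u w : V m) : ℤ := if adjB m u w = true then 1 else 0

theorem sumV (m : ℕ) (f : V m → ℤ) :
    ∑ y, f y = ∑ i : Fin 13, f (.inl i) + ∑ a : Fin 4, ∑ x : Fin m, f (.inr (a, x)) := by
  rw [Fintype.sum_sum_type, Fintype.sum_prod_type]

/-- integer versions -/
def hI (i j : Fin 13) : ℤ := if H i j = true then 1 else 0
def tI (i : Fin 13) (a : Fin 4) : ℤ := if T i a = true then 1 else 0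
def rI (a b : Fin 4) : ℤ := if R a b = true then 1 else 0

theorem sum_arm (m : ℕ) (a : Fin 4) (x : Fin m) (f : Fin 4 → ℤ) :
    ∑ b : Fin 4, ∑ y : Fin m, (if ((a, x) : Fin 4 × Fin m) ≠ (b, y) then f b else 0) =
      m * ∑ b, f b - f a := by
  have h1 : ∀ b : Fin 4, ∀ y : Fin m, (if ((a, x) : Fin 4 × Fin m) ≠ (b, y) then f b else 0) =
      f b - (if ((a, x) : Fin 4 × Fin m) = (b, y) then f b else 0) := by
    intro b y
    by_cases h : ((a, x) : Fin 4 × Fin m) = (b, y) <;> simp [h]
  simp_rw [h1, Finset.sum_sub_distrib]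
  congr 1
  · simp [Finset.mul_sum]
  · rw [← Fintype.sum_prod_type' (f := fun b y => if ((a, x) : Fin 4 × Fin m) = (b, y) then f b else 0)]
    rw [Finset.sum_eq_single (a, x)]
    · simp
    · intro q _ hq
      rw [if_neg]
      exact fun h => hq h.symm
    · simp

theorem g_ll (m : ℕ) (i j : Fin 13) : g m (.inl i) (.inl j) = hI i j := rfl
theorem g_lr (m : ℕ) (i : Fin 13) (a : Fin 4) (x : Fin m) : g m (.inl i) (.inr (a, x)) = tI i a := rfl
theorem g_rl (m : ℕ) (i : Fin 13) (a : Fin 4) (x : Fin m) : g m (.inr (a, x)) (.inl i) = tI i a := rfl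
theorem g_rr (m : ℕ) (a b : Fin 4) (x y : Fin m) : g m (.inr (a, x)) (.inr (b, y)) =
    if ((a, x) : Fin 4 × Fin m) ≠ (b, y) then rI a b else 0 := by
  unfold g rI
  show (if (R a b && decide (((a, x) : Fin 4 × Fin m) ≠ (b, y))) = true then (1 : ℤ) else 0) = _
  by_cases h : ((a, x) : Fin 4 × Fin m) = (b, y) <;> by_cases h' : R a b = true <;> simp [h, h']

/-- degrees -/
theorem deg (m : ℕ) (u : V m) : ∑ y, g m u y = 2 * (3 + m) := by
  rw [sumV]
  rcases u with i | ⟨a, x⟩
  · simp only [g_ll, g_lr, Finset.sum_const, Finset.card_univ, Fintype.card_fin, nsmul_eq_mul]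
    rw [← Finset.mul_sum]
    have h1 : ∀ i : Fin 13, ∑ j, hI i j = 6 := by decide
    have h2 : ∀ i : Fin 13, ∑ a, tI i a = 2 := by decide
    rw [h1, h2]; ring
  · simp only [g_rl, g_rr]
    rw [sum_arm]
    have h1 : ∀ a : Fin 4, ∑ j, tI j a = 6 + rI a a := by decide
    have h2 : ∀ a : Fin 4, ∑ b, rI a b = 2 := by decide
    rw [h1, h2]; ring

/-- common neighbours with the vertex `1` -/
theorem cod_l (m : ℕ) (i : Fin 13) : ∑ y, g m (.inl i) y * g m (.inl 1) y =
    (∑ j, hI i j * hI 1 j) + m * ∑ a, tI i a * tI 1 a := by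
  rw [sumV]
  simp only [g_ll, g_lr, Finset.sum_const, Finset.card_univ, Fintype.card_fin, nsmul_eq_mul]
  rw [← Finset.mul_sum]

theorem cod_r (m : ℕ) (a : Fin 4) (x : Fin m) : ∑ y, g m (.inr (a, x)) y * g m (.inl 1) y =
    (∑ j, tI j a * hI 1 j) + (m * (∑ b, rI a b * tI 1 b) - rI a a * tI 1 a) := by
  rw [sumV]
  simp only [g_ll, g_lr, g_rl, g_rr, ite_mul, zero_mul]
  congr 1
  exact sum_arm m a x (fun b => rI a b * tI 1 b)

/-- Ordered pairs of adjacent neighbours count every triangle twice. -/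
theorem two_mul_triangles {V : Type} [Fintype V] [DecidableEq V] (G : SimpleGraph V)
    [DecidableRel G.Adj] (v : V) :
    2 * {s : Finset V | G.IsNClique 3 s ∧ v ∈ s}.ncard =
      (Finset.univ.filter (fun p : V × V => G.Adj v p.1 ∧ G.Adj v p.2 ∧ G.Adj p.1 p.2)).card := by
  classical
  set S : Finset (Finset V) := Finset.univ.filter (fun s => G.IsNClique 3 s ∧ v ∈ s) with hS
  have h1 : {s : Finset V | G.IsNClique 3 s ∧ v ∈ s}.ncard = S.card := by
    rw [← Set.ncard_coe_finset]
    congr 1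
    ext s
    simp [hS]
  rw [h1]
  set Q := Finset.univ.filter (fun p : V × V => G.Adj v p.1 ∧ G.Adj v p.2 ∧ G.Adj p.1 p.2) with hQ
  have hmap : ∀ p ∈ Q, ({v, p.1, p.2} : Finset V) ∈ S := by
    intro p hp
    simp only [hQ, Finset.mem_filter, Finset.mem_univ, true_and] at hp
    simp only [hS, Finset.mem_filter, Finset.mem_univ, true_and]
    refine ⟨SimpleGraph.is3Clique_iff.2 ⟨v, p.1, p.2, hp.1, hp.2.1, hp.2.2, rfl⟩, by simp⟩
  rw [Finset.card_eq_sum_card_fiberwise (f := fun p : V × V => ({v, p.1, p.2} : Finset V)) hmap]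
  rw [Finset.sum_const_nat (m := 2), mul_comm]
  intro s hs
  simp only [hS, Finset.mem_filter, Finset.mem_univ, true_and] at hs
  obtain ⟨h3, hv⟩ := hs
  obtain ⟨x, y, hvx, hvy, hxy, rfl⟩ : ∃ x y, G.Adj v x ∧ G.Adj v y ∧ G.Adj x y ∧ s = {v, x, y} := by
    obtain ⟨a, b, c, hab, hac, hbc, rfl⟩ := SimpleGraph.is3Clique_iff.1 h3
    simp only [Finset.mem_insert, Finset.mem_singleton] at hv
    rcases hv with rfl | rfl | rfl
    · exact ⟨b, c, hab, hac, hbc, rfl⟩
    · refine ⟨a, c, hab.symm, hbc, hac, ?_⟩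
      ext z; simp only [Finset.mem_insert, Finset.mem_singleton]; tauto
    · refine ⟨a, b, hac.symm, hbc.symm, hab, ?_⟩
      ext z; simp only [Finset.mem_insert, Finset.mem_singleton]; tauto
  have hfib : Q.filter (fun p : V × V => ({v, p.1, p.2} : Finset V) = {v, x, y}) = {(x, y), (y, x)} := by
    ext ⟨a, b⟩
    simp only [hQ, Finset.mem_filter, Finset.mem_univ, true_and, Finset.mem_insert,
      Finset.mem_singleton, Prod.mk.injEq]
    constructor
    · rintro ⟨⟨ha, hb, hab⟩, he⟩
      have ha' : a ∈ ({v, x, y} : Finset V) := by rw [← he]; simp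
      have hb' : b ∈ ({v, x, y} : Finset V) := by rw [← he]; simp
      simp only [Finset.mem_insert, Finset.mem_singleton] at ha' hb'
      have hav := ha.ne'
      have hbv := hb.ne'
      have habn := hab.ne
      rcases ha' with h | h | h
      · exact absurd h hav
      · rcases hb' with h' | h' | h'
        · exact absurd h' hbv
        · exact absurd (h.trans h'.symm) habn
        · exact Or.inl ⟨h, h'⟩
      · rcases hb' with h' | h' | h'
        · exact absurd h' hbv
        · exact Or.inr ⟨h, h'⟩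
        · exact absurd (h.trans h'.symm) habn
    · rintro (⟨rfl, rfl⟩ | ⟨rfl, rfl⟩)
      · exact ⟨⟨hvx, hvy, hxy⟩, rfl⟩
      · refine ⟨⟨hvy, hvx, hxy.symm⟩, ?_⟩
        ext z; simp only [Finset.mem_insert, Finset.mem_singleton]; tauto
  rw [hfib, Finset.card_pair]
  intro h
  exact hxy.ne (Prod.mk.inj h).1

/-- The same count as a sum. -/
theorem triangles_sum (m : ℕ) (v : V m) :
    2 * ({s : Finset (V m) | (G m).IsNClique 3 s ∧ v ∈ s}.ncard : ℤ) =
      ∑ u, g m v u * ∑ y, g m u y * g m v y := by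
  have h := two_mul_triangles (G m) v
  have h2 : (2 * ({s : Finset (V m) | (G m).IsNClique 3 s ∧ v ∈ s}.ncard : ℤ)) =
      ((2 * {s : Finset (V m) | (G m).IsNClique 3 s ∧ v ∈ s}.ncard : ℕ) : ℤ) := by push_cast; rfl
  rw [h2, h, Finset.card_filter, Fintype.sum_prod_type]
  push_cast
  refine Finset.sum_congr rfl fun u _ => ?_
  rw [Finset.mul_sum]
  refine Finset.sum_congr rfl fun y _ => ?_
  show (if adjB m v u = true ∧ adjB m v y = true ∧ adjB m u y = true then (1 : ℤ) else 0) = _
  unfold g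
  by_cases h1 : adjB m v u = true <;> by_cases h2 : adjB m v y = true <;>
    by_cases h3 : adjB m u y = true <;> simp [h1, h2, h3]

theorem g_self (m : ℕ) (u : V m) : g m u u = 0 := by
  unfold g
  rw [if_neg]
  exact (G m).loopless.irrefl u

theorem g_comm (m : ℕ) (u w : V m) : g m u w = g m w u := by
  unfold g
  have : adjB m u w = true ↔ adjB m w u = true := (G m).adj_comm u w
  simp only [this]

theorem g_anti (m : ℕ) (P : G m ≃g (G m)ᶜ) (u w : V m) (h : u ≠ w) :
    g m (P u) (P w) = 1 - g m u w := by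
  have h1 : (G m)ᶜ.Adj (P u) (P w) ↔ (G m).Adj u w := P.map_rel_iff
  rw [SimpleGraph.compl_adj] at h1
  have h2 : P u ≠ P w := fun hh => h (P.injective hh)
  have h3 : ¬ adjB m (P u) (P w) = true ↔ adjB m u w = true := by
    constructor
    · intro hh; exact h1.1 ⟨h2, hh⟩
    · intro hh; exact (h1.2 hh).2
  unfold g
  by_cases h4 : adjB m u w = true
  · rw [if_pos h4, if_neg (h3.2 h4)]; norm_num
  · have h5 : adjB m (P u) (P w) = true := by
      by_contra hc
      exact h4 (h3.1 hc)
    rw [if_neg h4, if_pos h5]; norm_num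

/-- number of common neighbours -/
def c (m : ℕ) (u v : V m) : ℤ := ∑ y, g m u y * g m v y

theorem card_V (m : ℕ) : (Fintype.card (V m) : ℤ) = 4 * (3 + m) + 1 := by
  simp [V]; ring

theorem c_anti (m : ℕ) (P : G m ≃g (G m)ᶜ) (v : V m) (hv : P v = v) (u : V m)
    (hu : g m v u = 1) : c m u v = c m (P u) v - 1 := by
  have huv : u ≠ v := by
    rintro rfl
    rw [g_self] at hu
    exact absurd hu (by norm_num)
  have hPuv : P u ≠ v := fun h => huv (P.injective (h.trans hv.symm))
  have hw : g m v (P u) = 0 := by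
    have := g_anti m P v u huv.symm
    rw [hv, hu] at this
    rw [this]; norm_num
  have h1 : c m u v = ∑ z, ((1 - g m (P u) (P z)) * (1 - g m v (P z)) -
      (if z = u then 1 else 0) - (if z = v then 1 else 0)) := by
    unfold c
    refine Finset.sum_congr rfl fun z _ => ?_
    by_cases hzu : z = u
    · subst hzu
      rw [g_self, g_self, hw]
      simp [huv]
    · by_cases hzv : z = v
      · subst hzv
        rw [g_self, hv, g_self, g_comm m (P u) z, hw]
        simp [hzu]
      · have ha := g_anti m P u z (fun h => hzu h.symm)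
        have hb := g_anti m P v z (fun h => hzv h.symm)
        rw [hv] at hb
        rw [ha, hb]
        simp [hzu, hzv]
  have h2 : ∑ z, ((1 - g m (P u) (P z)) * (1 - g m v (P z))) =
      ∑ y, ((1 - g m (P u) y) * (1 - g m v y)) :=
    Equiv.sum_comp P.toEquiv (fun y => (1 - g m (P u) y) * (1 - g m v y))
  have h3 : ∑ y, ((1 - g m (P u) y) * (1 - g m v y)) = 1 + c m (P u) v := by
    have : ∀ y, (1 - g m (P u) y) * (1 - g m v y) =
        1 - g m (P u) y - g m v y + g m (P u) y * g m v y := fun y => by ring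
    simp_rw [this, Finset.sum_add_distrib, Finset.sum_sub_distrib, deg]
    have h4 : (∑ _y : V m, (1 : ℤ)) = 4 * (3 + m) + 1 := by
      rw [← card_V]; simp
    rw [h4]
    unfold c
    ring
  rw [h1, Finset.sum_sub_distrib, Finset.sum_sub_distrib, h2, h3]
  simp

/-- the two sums of squares agree if `v` is fixed -/
theorem invariant (m : ℕ) (P : G m ≃g (G m)ᶜ) (v : V m) (hv : P v = v) :
    ∑ u, g m v u * (c m u v) ^ 2 =
      ∑ w, (1 - g m v w) * (c m w v - 1) ^ 2 - (c m v v - 1) ^ 2 := by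
  have h1 : ∀ u, g m v u * (c m u v) ^ 2 =
      (1 - g m v (P u)) * (c m (P u) v - 1) ^ 2 - (if u = v then (c m v v - 1) ^ 2 else 0) := by
    intro u
    by_cases huv : u = v
    · subst huv
      rw [hv, g_self]
      simp
    · have hb := g_anti m P v u (fun h => huv h.symm)
      rw [hv] at hb
      rw [hb]
      simp only [huv, if_false, sub_zero, sub_sub_cancel]
      by_cases hg : g m v u = 1
      · rw [c_anti m P v hv u hg]
      · have h0 : g m v u = 0 := by
          unfold g at hg ⊢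
          by_cases h : adjB m v u = true
          · rw [if_pos h] at hg; exact absurd rfl hg
          · rw [if_neg h]
        rw [h0]; ring
  simp_rw [h1, Finset.sum_sub_distrib]
  have h2 : ∑ u, (1 - g m v (P u)) * (c m (P u) v - 1) ^ 2 =
      ∑ w, (1 - g m v w) * (c m w v - 1) ^ 2 :=
    Equiv.sum_comp P.toEquiv (fun w => (1 - g m v w) * (c m w v - 1) ^ 2)
  rw [h2]
  simp

theorem quad {ι : Type} [Fintype ι] (w p q : ι → ℤ) (m : ℤ) :
    ∑ i, w i * (p i + m * q i) ^ 2 =
      (∑ i, w i * p i ^ 2) + m * (2 * ∑ i, w i * p i * q i) + m ^ 2 * ∑ i, w i * q i ^ 2 := by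
  simp only [Finset.mul_sum, ← Finset.sum_add_distrib]
  refine Finset.sum_congr rfl fun i _ => ?_
  ring

def p1 (i : Fin 13) : ℤ := ∑ j, hI i j * hI 1 j
def q1 (i : Fin 13) : ℤ := ∑ a, tI i a * tI 1 a
def p2 (a : Fin 4) : ℤ := (∑ j, tI j a * hI 1 j) - rI a a * tI 1 a
def q2 (a : Fin 4) : ℤ := ∑ b, rI a b * tI 1 b

theorem c_l (m : ℕ) (i : Fin 13) : c m (.inl i) (.inl 1) = p1 i + m * q1 i := cod_l m i
theorem c_r (m : ℕ) (a : Fin 4) (x : Fin m) : c m (.inr (a, x)) (.inl 1) = p2 a + m * q2 a := by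
  unfold c
  rw [cod_r]
  unfold p2 q2
  ring

theorem lhs (m : ℕ) : ∑ u, g m (.inl 1) u * (c m u (.inl 1)) ^ 2 =
    (∑ i, hI 1 i * p1 i ^ 2) + m * (2 * ∑ i, hI 1 i * p1 i * q1 i) + m ^ 2 * (∑ i, hI 1 i * q1 i ^ 2) +
    m * ((∑ a, tI 1 a * p2 a ^ 2) + m * (2 * ∑ a, tI 1 a * p2 a * q2 a) +
      m ^ 2 * ∑ a, tI 1 a * q2 a ^ 2) := by
  rw [sumV]
  simp only [g_ll, g_lr, c_l, c_r, Finset.sum_const, Finset.card_univ, Fintype.card_fin, nsmul_eq_mul]
  rw [← Finset.mul_sum, quad, quad]

theorem rhs (m : ℕ) : ∑ u, (1 - g m (.inl 1) u) * (c m u (.inl 1) - 1) ^ 2 =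
    (∑ i, (1 - hI 1 i) * (p1 i - 1) ^ 2) + m * (2 * ∑ i, (1 - hI 1 i) * (p1 i - 1) * q1 i) +
      m ^ 2 * (∑ i, (1 - hI 1 i) * q1 i ^ 2) +
    m * ((∑ a, (1 - tI 1 a) * (p2 a - 1) ^ 2) + m * (2 * ∑ a, (1 - tI 1 a) * (p2 a - 1) * q2 a) +
      m ^ 2 * ∑ a, (1 - tI 1 a) * q2 a ^ 2) := by
  rw [sumV]
  simp only [g_ll, g_lr, c_l, c_r, Finset.sum_const, Finset.card_univ, Fintype.card_fin, nsmul_eq_mul]
  rw [← Finset.mul_sum, ← quad, ← quad]
  congr 1
  · refine Finset.sum_congr rfl fun i _ => ?_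
    ring
  · congr 1
    refine Finset.sum_congr rfl fun i _ => ?_
    ring

theorem not_fixed (m : ℕ) (P : G m ≃g (G m)ᶜ) : P (.inl 1) ≠ .inl 1 := by
  intro hv
  have h := invariant m P (.inl 1) hv
  rw [lhs, rhs, c_l] at h
  have e1 : (∑ i, hI 1 i * p1 i ^ 2) = 32 := by decide
  have e2 : (∑ i, hI 1 i * p1 i * q1 i) = 11 := by decide
  have e3 : (∑ i, hI 1 i * q1 i ^ 2) = 10 := by decide
  have e4 : (∑ a, tI 1 a * p2 a ^ 2) = 10 := by decide
  have e5 : (∑ a, tI 1 a * p2 a * q2 a) = 4 := by decide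
  have e6 : (∑ a, tI 1 a * q2 a ^ 2) = 2 := by decide
  have f1 : (∑ i, (1 - hI 1 i) * (p1 i - 1) ^ 2) = 51 := by decide
  have f2 : (∑ i, (1 - hI 1 i) * (p1 i - 1) * q1 i) = 22 := by decide
  have f3 : (∑ i, (1 - hI 1 i) * q1 i ^ 2) = 14 := by decide
  have f4 : (∑ a, (1 - tI 1 a) * (p2 a - 1) ^ 2) = 8 := by decide
  have f5 : (∑ a, (1 - tI 1 a) * (p2 a - 1) * q2 a) = 4 := by decide
  have f6 : (∑ a, (1 - tI 1 a) * q2 a ^ 2) = 2 := by decide
  have k1 : p1 1 = 6 := by decide
  have k2 : q1 1 = 2 := by decide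
  rw [e1, e2, e3, e4, e5, e6, f1, f2, f3, f4, f5, f6, k1, k2] at h
  ring_nf at h
  omega

theorem triangles (m : ℕ) :
    {s : Finset (V m) | (G m).IsNClique 3 s ∧ (.inl 1 : V m) ∈ s}.ncard = (3 + m) * (3 + m - 1) := by
  have h := triangles_sum m (.inl 1)
  have h2 : ∑ u, g m (.inl 1) u * ∑ y, g m u y * g m (.inl 1) y =
      (∑ i, hI 1 i * p1 i) + m * (∑ i, hI 1 i * q1 i) +
      m * ((∑ a, tI 1 a * p2 a) + m * ∑ a, tI 1 a * q2 a) := by
    rw [sumV]
    have h3 : ∀ i : Fin 13, ∑ y, g m (.inl i) y * g m (.inl 1) y = p1 i + m * q1 i := c_l m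
    have h4 : ∀ (a : Fin 4) (x : Fin m), ∑ y, g m (.inr (a, x)) y * g m (.inl 1) y =
        p2 a + m * q2 a := c_r m
    simp only [g_ll, g_lr, h3, h4, Finset.sum_const, Finset.card_univ, Fintype.card_fin, nsmul_eq_mul]
    simp only [Finset.mul_sum, ← Finset.sum_add_distrib]
    congr 1
    · refine Finset.sum_congr rfl fun i _ => ?_
      ring
    · refine Finset.sum_congr rfl fun i _ => ?_
      ring
  rw [h2] at h
  have e1 : (∑ i, hI 1 i * p1 i) = 12 := by decide
  have e2 : (∑ i, hI 1 i * q1 i) = 6 := by decide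
  have e3 : (∑ a, tI 1 a * p2 a) = 4 := by decide
  have e4 : (∑ a, tI 1 a * q2 a) = 2 := by decide
  rw [e1, e2, e3, e4] at h
  have h5 : 3 + m - 1 = 2 + m := by omega
  rw [h5]
  have h6 : ({s : Finset (V m) | (G m).IsNClique 3 s ∧ (.inl 1 : V m) ∈ s}.ncard : ℤ) =
      (3 + m) * (2 + m) := by nlinarith
  exact_mod_cast h6

theorem degree_eq (m : ℕ) (u : V m) : ((G m).neighborSet u).ncard = 2 * (3 + m) := by
  have h := deg m u
  unfold g at h
  rw [Finset.sum_ite, Finset.sum_const_zero, add_zero, Finset.sum_const, nsmul_eq_mul, mul_one] at h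
  have h2 : ((G m).neighborSet u) = ((Finset.univ.filter (fun y => adjB m u y = true) : Finset (V m)) : Set (V m)) := by
    ext y
    simp only [SimpleGraph.mem_neighborSet, Finset.coe_filter, Finset.mem_univ, true_and]
    rfl
  rw [h2, Set.ncard_coe_finset]
  exact_mod_cast h

/-- For every `k ≥ 3` there are a regular self-complementary graph on `4 k + 1` vertices and a vertex
`v` in exactly `k (k - 1)` triangles which no isomorphism onto the complement fixes. -/
theorem result : ∀ k : ℕ, 3 ≤ k → ∃ (V : Type) (_ : Fintype V) (G : SimpleGraph V) (v : V),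
    Fintype.card V = 4 * k + 1 ∧
    (∀ u : V, (G.neighborSet u).ncard = 2 * k) ∧
    Nonempty (G ≃g Gᶜ) ∧
    {s : Finset V | G.IsNClique 3 s ∧ v ∈ s}.ncard = k * (k - 1) ∧
    ∀ P : G ≃g Gᶜ, P v ≠ v := by
  intro k hk
  obtain ⟨m, rfl⟩ := Nat.exists_eq_add_of_le hk
  refine ⟨V m, inferInstance, G m, .inl 1, ?_, degree_eq m, ⟨antiIso m⟩, triangles m, not_fixed m⟩
  have := card_V m
  have h2 : ((Fintype.card (V m) : ℕ) : ℤ) = ((4 * (3 + m) + 1 : ℕ) : ℤ) := by
    rw [this]; push_cast; ring
  exact_mod_cast h2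

end Pool.Agent.Results.MP_b6be33_co.FixedVertices
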